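import Pool.Agent.W716.FV.Final
import Pool.Agent.W716.FV.NU

/-!
# A dimension-free constant in Gromov's filling volume inequality for round spheres

Write `d(x, q)` for the (extended) distance functions on the filling `M` of `S^d`, `n = d + 1`, and
`u_G(R, q) = R |G| cos d(G/|G|, q)` on the cone over `M`, `G ∈ ℝ^n`.  For `η ∈ ℝ^n`, `g` standard
Gaussian in `ℝ^n` and `κ` independent with density `8/(3π) (1+κ²)^(-3)`, the maps
`T_η = E[u_{g+κη} g] - η` and `S_η = (R²+|η|²)/6 - E[κ u_{g+κη}]` send the cone over `M` to
`ℝ^n × ℝ`, cover the region above the paraboloid `s = |τ|²/6` (parity), and have Jacobian at most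
`3^(-1/2) exp(S_η - 1/2)`.  For a fixed point of the cone, `η ↦ T_η` has derivative `A - 1` with `A`
symmetric, with Hilbert-Schmidt norm and trace controlled by `S_η`, and is injective on
`{S_η ≤ 27/200}`.  Counting in two ways gives the theorem.
-/

set_option autoImplicit false

open MeasureTheory

namespace Pool.Agent.Results.MP_aeade1_gt.OneFifth

open Pool.Agent.H241R3.FV

/-- For every `d ≥ 1`, every compact triangulated nonshortcutting filling of the round sphere `S^d`,
orientable or not and of any topology, has volume at least one fifth of the volume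
`vol(S^(d+1)) / 2` of the round hemisphere. -/
theorem result (d : ℕ) (hd : 1 ≤ d) (M : Type) [MetricSpace M] [CompactSpace M] (S : Fill d M)
    (hS : S.NonShort) (hT : S.Triangulated) :
    ENNReal.ofReal (1 / 5) *
      ((volume : Measure (EuclideanSpace ℝ (Fin (d + 2)))).toSphere Set.univ / 2) ≤ S.vol := by
  have h := Pool.Agent.W716.FV.final_of Pool.Agent.W716.FV.nU d hd M S hS hT
  refine le_trans (le_of_eq ?_) h
  rw [ENNReal.div_eq_inv_mul, ← mul_assoc]
  congr 1
  rw [show (1 / 10 : ℝ) = 1 / 5 * (1 / 2) by norm_num, ENNReal.ofReal_mul (by norm_num)]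
  congr 1
  rw [one_div, ENNReal.ofReal_inv_of_pos (by norm_num)]
  norm_num

end Pool.Agent.Results.MP_aeade1_gt.OneFifth
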